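import Mathlib

namespace Pool.Agent.FS.LinGap42

open Set Real

/-- Every line that misses the family `p` has a partner line that weakly separates the family `q`
in the same way. -/
def Sep {I : Type} (p q : I → ℝ × ℝ) : Prop :=
  ∀ a b c : ℝ, (a ≠ 0 ∨ b ≠ 0) → (∀ i, a * (p i).1 + b * (p i).2 ≠ c) →
    ∃ A B C : ℝ, (A ≠ 0 ∨ B ≠ 0) ∧ ∀ i,
      (a * (p i).1 + b * (p i).2 < c → A * (q i).1 + B * (q i).2 ≤ C) ∧
      (c < a * (p i).1 + b * (p i).2 → C ≤ A * (q i).1 + B * (q i).2)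

lemma mid {r : ℝ} {g : ℝ × ℝ → ℝ} (hg : Continuous g) {y w : ℝ × ℝ} (hy : ‖y‖ ≤ r) (hw : ‖w‖ ≤ r)
    (h : g y * g w ≤ 0) : ∃ d, ‖d‖ ≤ r ∧ g d = 0 := by
  have hc := (convex_closedBall (0 : ℝ × ℝ) r).isPreconnected
  have hy' : y ∈ Metric.closedBall (0 : ℝ × ℝ) r := by simpa using hy
  have hw' : w ∈ Metric.closedBall (0 : ℝ × ℝ) r := by simpa using hw
  rcases mul_nonpos_iff.1 h with h | h
  · obtain ⟨d, h1, h2⟩ := hc.intermediate_value hw' hy' hg.continuousOn ⟨h.2, h.1⟩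
    exact ⟨d, by simpa using h1, h2⟩
  · obtain ⟨d, h1, h2⟩ := hc.intermediate_value hy' hw' hg.continuousOn ⟨h.1, h.2⟩
    exact ⟨d, by simpa using h1, h2⟩

/-- the determinant of `y - d` and `w - d` -/
def dt (y w d : ℝ × ℝ) : ℝ := (y.1 - d.1) * (w.2 - d.2) - (y.2 - d.2) * (w.1 - d.1)

lemma half {J : Type} {x : J → ℝ × ℝ} {σ : J → ℝ} {q0 : ℝ × ℝ} (hx : ∀ i, x i ≠ q0)
    (hσ : ∀ i, σ i ≠ 0)
    (h : ∀ s : Finset J, s.Nonempty → ∃ m, ∀ i ∈ s, 0 ≤ σ m * σ i * dt (x m) (x i) q0) :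
    ∃ u : ℝ × ℝ, u ≠ 0 ∧ ∀ i, 0 ≤ σ i * (u.1 * ((x i).2 - q0.2) - u.2 * ((x i).1 - q0.1)) := by
  obtain ⟨u, h1, h2⟩ := (isCompact_sphere (0 : ℝ × ℝ) 1).inter_iInter_nonempty
    (fun i => {u : ℝ × ℝ | 0 ≤ σ i * (u.1 * ((x i).2 - q0.2) - u.2 * ((x i).1 - q0.1))})
    (fun i => isClosed_le continuous_const (by fun_prop)) fun s => by
      rcases s.eq_empty_or_nonempty with rfl | hs
      · exact ⟨(1, 0), by simp⟩
      obtain ⟨m, hm⟩ := h s hs
      have h0 : σ m • (x m - q0) ≠ 0 := smul_ne_zero (hσ m) (sub_ne_zero.2 (hx m))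
      have h3 := norm_pos_iff.2 h0
      refine ⟨‖σ m • (x m - q0)‖⁻¹ • σ m • (x m - q0), ?_, ?_⟩
      · rw [mem_sphere_zero_iff_norm, norm_smul, norm_inv, norm_norm, inv_mul_cancel₀ h3.ne']
      · simp only [mem_iInter, mem_ofPred_eq]
        intro i hi
        have := mul_nonneg (inv_pos.2 h3).le (hm i hi)
        simp only [Prod.smul_fst, Prod.smul_snd, Prod.fst_sub, Prod.snd_sub, smul_eq_mul]
        unfold dt at this
        generalize ‖σ m • (x m - q0)‖⁻¹ = e at *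
        linarith
  refine ⟨u, fun h0 => by simp [h0] at h1, fun i => mem_iInter.1 h2 i⟩

lemma move {J : Type} {x : J → ℝ × ℝ} {r : ℝ} (hx : ∀ i d, ‖d‖ ≤ r → x i ≠ d)
    (H : ∀ i j, i ≠ j → ∀ d, ‖d‖ ≤ r → dt (x i) (x j) d ≠ 0) {p0 q0 : ℝ × ℝ} (hp : ‖p0‖ ≤ r)
    (hq : ‖q0‖ ≤ r) : Sep (fun o : Option J => o.elim p0 x) fun o => o.elim q0 x := by
  intro a b c hab hm
  by_cases h : 0 < (a * p0.1 + b * p0.2 - c) * (a * q0.1 + b * q0.2 - c)
  · refine ⟨a, b, c, hab, fun o => ?_⟩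
    cases o with
    | none => exact ⟨fun h1 => by simp only [Option.elim] at h1 ⊢; nlinarith,
        fun h1 => by simp only [Option.elim] at h1 ⊢; nlinarith⟩
    | some i => exact ⟨le_of_lt, le_of_lt⟩
  obtain ⟨d, hd, h0⟩ := mid (g := fun z => a * z.1 + b * z.2 - c) (by fun_prop) hp hq (not_lt.1 h)
  have h0 : a * d.1 + b * d.2 - c = 0 := h0
  have hm' : ∀ i, c - (a * (x i).1 + b * (x i).2) ≠ 0 := fun i => sub_ne_zero.2 (hm (some i)).symm
  have hab' : 0 < a ^ 2 + b ^ 2 := by rcases hab with h | h <;> positivity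
  obtain ⟨u, h1, h2⟩ := half (x := x) (σ := fun i => c - (a * (x i).1 + b * (x i).2)) (q0 := q0)
    (fun i => hx i q0 hq) hm' fun s hs => by
      obtain ⟨m, -, h3⟩ := s.exists_max_image (fun i => (a * ((x i).2 - d.2) - b * ((x i).1 - d.1)) /
        (c - (a * (x i).1 + b * (x i).2))) hs
      refine ⟨m, fun i hi => ?_⟩
      by_cases him : m = i
      · subst him
        simp [dt, mul_comm]
      have h4 := h3 i hi
      have h5 : 0 < dt (x m) (x i) d * dt (x m) (x i) q0 := by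
        by_contra h6
        obtain ⟨e, h7, h8⟩ := mid (g := dt (x m) (x i)) (by unfold dt; fun_prop) hd hq (not_lt.1 h6)
        exact H m i him e h7 h8
      have h6 : (a ^ 2 + b ^ 2) * dt (x m) (x i) d =
          (a * ((x m).2 - d.2) - b * ((x m).1 - d.1)) * (c - (a * (x i).1 + b * (x i).2)) -
          (a * ((x i).2 - d.2) - b * ((x i).1 - d.1)) * (c - (a * (x m).1 + b * (x m).2)) := by
        have : c = a * d.1 + b * d.2 := by linarith
        rw [this, dt]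
        ring
      have e1 := hm' m
      have e2 := hm' i
      generalize c - (a * (x i).1 + b * (x i).2) = Fi at *
      generalize c - (a * (x m).1 + b * (x m).2) = Fm at *
      generalize a * ((x i).2 - d.2) - b * ((x i).1 - d.1) = Gi at *
      generalize a * ((x m).2 - d.2) - b * ((x m).1 - d.1) = Gm at *
      generalize dt (x m) (x i) d = D at *
      generalize dt (x m) (x i) q0 = D' at *
      have h7 : (a ^ 2 + b ^ 2) * (Fm * Fi * D) = (Fm * Fi) ^ 2 * (Gm / Fm - Gi / Fi) := by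
        rw [mul_left_comm, h6]
        field_simp
      have h8 : 0 ≤ Fm * Fi * D :=
        nonneg_of_mul_nonneg_right (h7 ▸ mul_nonneg (sq_nonneg _) (sub_nonneg.2 h4)) hab'
      have h9 : 0 < D ^ 2 := by
        have : D ≠ 0 := fun h => by simp [h] at h5
        positivity
      have h10 : 0 ≤ D ^ 2 * (Fm * Fi * D') := by nlinarith [mul_nonneg h8 h5.le]
      exact nonneg_of_mul_nonneg_right h10 h9
  refine ⟨u.2, -u.1, u.2 * q0.1 + -u.1 * q0.2, ?_, fun o => ?_⟩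
  · by_contra h3
    rw [not_or, not_not, not_not, neg_eq_zero] at h3
    exact h1 (Prod.ext h3.2 h3.1)
  cases o with
  | none => exact ⟨fun _ => le_rfl, fun _ => le_rfl⟩
  | some i =>
    have h3 := h2 i
    simp only [Option.elim]
    exact ⟨fun h4 => by nlinarith [nonneg_of_mul_nonneg_right h3 (sub_pos.2 h4)],
      fun h4 => by nlinarith [nonpos_of_mul_nonneg_right h3 (sub_neg.2 h4)]⟩

end Pool.Agent.FS.LinGap42
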