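import Pool.Agent.FS.LinGap42.Main

namespace Pool.Agent.FS.LinGap42

open Set Real

/-- the angle of the ray number `j` -/
noncomputable def th (N : ℕ) (j : ℕ) : ℝ := π - 2 * π * j / N

/-- points on `N` rays tangent to the circle of radius `κ` -/
noncomputable def wh (N : ℕ) (κ : ℝ) (i : Fin N × ℕ) : ℝ × ℝ :=
  ((i.2 + 1) * cos (th N i.1) - κ * sin (th N i.1), (i.2 + 1) * sin (th N i.1) + κ * cos (th N i.1))

lemma sin_ne {M : ℕ} {i j : Fin (2 * M + 3)} (h : i ≠ j) :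
    cos (th (2 * M + 3) i) * sin (th (2 * M + 3) j) - sin (th (2 * M + 3) i) * cos (th (2 * M + 3) j)
      ≠ 0 := by
  intro h0
  have h1 : sin (th (2 * M + 3) j - th (2 * M + 3) i) = 0 := by rw [sin_sub]; linarith
  obtain ⟨n, hn⟩ := sin_eq_zero_iff.1 h1
  have h2 : (n : ℝ) * (2 * M + 3) = 2 * (((i : ℕ) : ℝ) - (j : ℕ)) := by
    unfold th at hn
    push_cast at hn
    have := pi_pos
    field_simp at hn
    linarith
  have h3 : n * (2 * M + 3) = 2 * (((i : ℕ) : ℤ) - (j : ℕ)) := by exact_mod_cast h2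
  have hi : ((i : ℕ) : ℤ) < 2 * M + 3 := by exact_mod_cast i.2
  have hj : ((j : ℕ) : ℤ) < 2 * M + 3 := by exact_mod_cast j.2
  have h4 : n < 2 := by nlinarith
  have h5 : -2 < n := by nlinarith
  apply h
  ext
  interval_cases n <;> omega

lemma big {t s e A B C κ : ℝ} (ht : 1 ≤ t) (hs : 1 ≤ s) (hκ : 0 < κ) (he : 17 * κ ≤ |e|)
    (hA : |A| ≤ 4 * κ) (hB : |B| ≤ 4 * κ) (hC : |C| ≤ 8 * κ) : t * s * e + t * A + s * B + C ≠ 0 := by
  intro h
  have h1 : t ≤ t * s := by nlinarith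
  have h2 : s ≤ t * s := by nlinarith
  rw [abs_le] at hA hB hC
  have a1 := mul_le_mul_of_nonneg_left hA.1 (zero_le_one.trans ht)
  have a2 := mul_le_mul_of_nonneg_left hA.2 (zero_le_one.trans ht)
  have a3 := mul_le_mul_of_nonneg_left hB.1 (zero_le_one.trans hs)
  have a4 := mul_le_mul_of_nonneg_left hB.2 (zero_le_one.trans hs)
  have a5 := mul_le_mul_of_nonneg_right h1 hκ.le
  have a6 := mul_le_mul_of_nonneg_right h2 hκ.le
  have a7 := mul_le_mul_of_nonneg_right (ht.trans h1) hκ.le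
  rcases le_abs.1 he with he | he <;>
    nlinarith [mul_le_mul_of_nonneg_left he (zero_le_one.trans (ht.trans h1))]

lemma ab {u v a b m : ℝ} (hu : |u| ≤ m) (hv : |v| ≤ m) {k : ℝ} (ha : |a| ≤ k) (hb : |b| ≤ k) :
    |u * a - v * b| ≤ 2 * m * k := by
  have h1 := mul_le_mul hu ha (abs_nonneg _) ((abs_nonneg _).trans hu)
  have h2 := mul_le_mul hv hb (abs_nonneg _) ((abs_nonneg _).trans hv)
  have := abs_sub (u * a) (v * b)
  rw [abs_mul, abs_mul] at this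
  linarith

lemma off {κ w d : ℝ} (hκ : 0 < κ) (hw : |w| ≤ 1) (hd : |d| ≤ κ / 4) :
    |κ * w - d| ≤ 2 * κ ∧ |-(κ * w) - d| ≤ 2 * κ := by
  rw [abs_le] at hw hd
  constructor <;> rw [abs_le] <;> constructor <;> nlinarith

lemma wheel (M : ℕ) : ∃ κ : ℝ, 0 < κ ∧ κ ≤ 1 ∧ (∀ i d, ‖d‖ ≤ κ / 4 → wh (2 * M + 3) κ i ≠ d) ∧
    ∀ i j, i ≠ j → ∀ d, ‖d‖ ≤ κ / 4 → dt (wh (2 * M + 3) κ i) (wh (2 * M + 3) κ j) d ≠ 0 := by
  classical
  obtain ⟨p, hp⟩ := Finite.exists_min fun p : Fin (2 * M + 3) × Fin (2 * M + 3) =>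
    if p.1 = p.2 then (1 : ℝ) else |cos (th (2 * M + 3) p.1) * sin (th (2 * M + 3) p.2) -
      sin (th (2 * M + 3) p.1) * cos (th (2 * M + 3) p.2)|
  obtain ⟨c, h0, h1, h2⟩ : ∃ c : ℝ, 0 < c ∧ c ≤ 1 ∧ ∀ i j : Fin (2 * M + 3), i ≠ j →
      c ≤ |cos (th (2 * M + 3) i) * sin (th (2 * M + 3) j) -
        sin (th (2 * M + 3) i) * cos (th (2 * M + 3) j)| := by
    refine ⟨_, ?_, by simpa using hp (0, 0), fun i j h => by simpa [h] using hp (i, j)⟩
    split_ifs with h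
    · exact one_pos
    · exact abs_pos.2 (sin_ne h)
  obtain ⟨κ, rfl⟩ : ∃ κ, c = 17 * κ := ⟨c / 17, by ring⟩
  have hκ : 0 < κ := by linarith
  have H : ∀ i j, i ≠ j → ∀ d : ℝ × ℝ, ‖d‖ ≤ κ / 4 →
      dt (wh (2 * M + 3) κ i) (wh (2 * M + 3) κ j) d ≠ 0 := by
    rintro ⟨i, k⟩ ⟨j, l⟩ h d hd
    have d1 : |d.1| ≤ κ / 4 := (norm_fst_le d).trans hd
    have d2 : |d.2| ≤ κ / 4 := (norm_snd_le d).trans hd
    by_cases hij : i = j
    · subst hij
      have h3 : (l : ℝ) - k ≠ 0 := sub_ne_zero.2 fun h' => h (by rw [Nat.cast_injective h'])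
      have h4 := ab (abs_cos_le_one (th (2 * M + 3) i)) (abs_sin_le_one (th (2 * M + 3) i)) d2 d1
      have h5 := cos_sq_add_sin_sq (th (2 * M + 3) i)
      have h6 : dt (wh (2 * M + 3) κ (i, k)) (wh (2 * M + 3) κ (i, l)) d = ((l : ℝ) - k) *
          (cos (th (2 * M + 3) i) * d.2 - sin (th (2 * M + 3) i) * d.1 - κ) := by
        simp only [dt, wh]
        linear_combination (-((l : ℝ) - k) * κ) * h5
      rw [h6]
      refine mul_ne_zero h3 fun h7 => ?_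
      linarith [(abs_le.1 h4).2]
    · have a1 := (off hκ (abs_sin_le_one (th (2 * M + 3) i)) d1).2
      have a2 := (off hκ (abs_cos_le_one (th (2 * M + 3) i)) d2).1
      have b1 := (off hκ (abs_sin_le_one (th (2 * M + 3) j)) d1).2
      have b2 := (off hκ (abs_cos_le_one (th (2 * M + 3) j)) d2).1
      have e1 := ab (abs_cos_le_one (th (2 * M + 3) i)) (abs_sin_le_one (th (2 * M + 3) i)) b2 b1
      have e2 := ab (abs_sin_le_one (th (2 * M + 3) j)) (abs_cos_le_one (th (2 * M + 3) j)) a1 a2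
      have e3 := ab a1 a2 b2 b1
      have := big (t := k + 1) (s := l + 1) (by simp) (by simp) hκ (h2 i j hij)
        (e1.trans (by linarith)) (e2.trans (by linarith)) (e3.trans (by nlinarith))
      refine fun h7 => this ?_
      simp only [dt, wh] at h7
      linear_combination h7
  refine ⟨κ, hκ, by linarith, fun i d hd h => H i (i.1, i.2 + 1) (fun h' => ?_) d hd ?_, H⟩
  · simpa using congrArg Prod.snd h'
  · simp [dt, h]

lemma near {N : ℕ} (hN : 0 < N) {κ ε : ℝ} (h0 : 0 < κ) (h1 : κ ≤ 1) (hε : 4 * π / N ≤ ε) (z : ℝ × ℝ) :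
    ∃ i, dist (wh N κ i) z ≤ ε * ‖z‖ + 2 := by
  obtain ⟨w, hw⟩ : ∃ w : ℂ, w = ⟨z.1, z.2⟩ := ⟨_, rfl⟩
  have c1 : ‖w‖ * cos w.arg = z.1 := by rw [Complex.norm_mul_cos_arg, hw]
  have c2 : ‖w‖ * sin w.arg = z.2 := by rw [Complex.norm_mul_sin_arg, hw]
  have c3 : ‖w‖ ≤ 2 * ‖z‖ := by
    have := Complex.norm_le_abs_re_add_abs_im w
    have d1 : |z.1| ≤ ‖z‖ := norm_fst_le z
    have d2 : |z.2| ≤ ‖z‖ := norm_snd_le z
    rw [hw] at this ⊢
    linarith
  have p0 := pi_pos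
  have N0 : (0 : ℝ) < N := by exact_mod_cast hN
  have t0 : 0 ≤ (π - w.arg) * N / (2 * π) := by
    have := sub_nonneg.2 (Complex.arg_le_pi w)
    positivity
  have t1 : ⌊(π - w.arg) * N / (2 * π)⌋₊ < N := by
    rw [Nat.floor_lt t0, div_lt_iff₀ (by positivity)]
    nlinarith [Complex.neg_pi_lt_arg w]
  have t2 : |th N ⌊(π - w.arg) * N / (2 * π)⌋₊ - w.arg| ≤ 2 * π / N := by
    have e1 := Nat.floor_le t0
    have e2 := Nat.lt_floor_add_one ((π - w.arg) * N / (2 * π))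
    rw [le_div_iff₀ (by positivity)] at e1
    rw [div_lt_iff₀ (by positivity)] at e2
    unfold th
    generalize (⌊(π - w.arg) * N / (2 * π)⌋₊ : ℝ) = j at *
    have e3 : π - 2 * π * j / N - w.arg = ((π - w.arg) * N - j * (2 * π)) / N := by field_simp; ring
    rw [e3, abs_of_nonneg (div_nonneg (by linarith) N0.le)]
    exact div_le_div_of_nonneg_right (by linarith) N0.le
  refine ⟨(⟨_, t1⟩, ⌊‖w‖⌋₊), ?_⟩
  have f1 := Nat.floor_le (norm_nonneg w)
  have f2 := Nat.lt_floor_add_one ‖w‖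
  have g1 := abs_le.1 ((abs_cos_sub_cos_le _ _).trans t2)
  have g2 := abs_le.1 ((abs_sin_sub_sin_le _ _).trans t2)
  have g3 : ‖w‖ * (2 * π / N) ≤ ε * ‖z‖ := by
    have : 2 * π / N * 2 = 4 * π / N := by ring
    have e : 0 ≤ 2 * π / N := by positivity
    nlinarith [mul_le_mul_of_nonneg_right c3 e, mul_le_mul_of_nonneg_right hε (norm_nonneg z)]
  rw [Prod.dist_eq, max_le_iff, Real.dist_eq, Real.dist_eq, ← c1, ← c2]
  simp only [wh]
  generalize th N ⌊(π - w.arg) * N / (2 * π)⌋₊ = θ at *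
  have s1 := abs_le.1 (abs_sin_le_one θ)
  have s2 := abs_le.1 (abs_cos_le_one θ)
  have n0 := norm_nonneg w
  generalize (⌊‖w‖⌋₊ : ℝ) = k at *
  have m1 := mul_le_mul_of_nonneg_left g1.1 n0
  have m2 := mul_le_mul_of_nonneg_left g1.2 n0
  have m3 := mul_le_mul_of_nonneg_left g2.1 n0
  have m4 := mul_le_mul_of_nonneg_left g2.2 n0
  have k0 : 0 ≤ k + 1 - ‖w‖ := by linarith
  constructor <;> rw [abs_le] <;> constructor <;>
    nlinarith [mul_le_mul_of_nonneg_left s1.1 k0, mul_le_mul_of_nonneg_left s1.2 k0,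
      mul_le_mul_of_nonneg_left s2.1 k0, mul_le_mul_of_nonneg_left s2.2 k0,
      mul_le_mul_of_nonneg_left s1.1 h0.le, mul_le_mul_of_nonneg_left s1.2 h0.le,
      mul_le_mul_of_nonneg_left s2.1 h0.le, mul_le_mul_of_nonneg_left s2.2 h0.le]

lemma fin_ball (N : ℕ) (κ : ℝ) (y : ℝ × ℝ) (R : ℝ) :
    {o : Option (Fin N × ℕ) | ‖o.elim y (wh N κ)‖ ≤ R}.Finite := by
  refine (((finite_univ.prod (finite_le_nat ⌊2 * R⌋₊)).image some).insert none).subset ?_
  rintro (_ | ⟨j, k⟩) h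
  · exact mem_insert _ _
  refine mem_insert_of_mem _ ⟨(j, k), ⟨mem_univ _, Nat.le_floor ?_⟩, rfl⟩
  have d1 : |(wh N κ (j, k)).1| ≤ R := (norm_fst_le _).trans h
  have d2 : |-(wh N κ (j, k)).2| ≤ R := (abs_neg _).trans_le ((norm_snd_le _).trans h)
  have h1 := (abs_le.1 (ab (abs_cos_le_one (th N j)) (abs_sin_le_one (th N j)) d1 d2)).2
  have h2 := cos_sq_add_sin_sq (th N j)
  have h3 : cos (th N j) * (wh N κ (j, k)).1 - sin (th N j) * -(wh N κ (j, k)).2 = k + 1 := by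
    simp only [wh]
    linear_combination ((k : ℝ) + 1) * h2
  linarith

lemma inj {J : Type} {x : J → ℝ × ℝ} {r : ℝ} (hx : ∀ i d, ‖d‖ ≤ r → x i ≠ d)
    (H : ∀ i j, i ≠ j → ∀ d, ‖d‖ ≤ r → dt (x i) (x j) d ≠ 0) {y : ℝ × ℝ} (hy : ‖y‖ ≤ r) :
    Function.Injective fun o : Option J => o.elim y x := by
  rintro (_ | i) (_ | j) h
  · rfl
  · exact absurd h.symm (hx j y hy)
  · exact absurd h (hx i y hy)
  · by_contra h1
    have h2 : x i = x j := h
    exact H i j (fun h3 => h1 (h3 ▸ rfl)) y hy (by rw [h2, dt]; ring)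

end Pool.Agent.FS.LinGap42
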